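import Pool.Agent.Lib.HA.Main

/-!
All pointed hyperelliptic curves of genus `g` over a global function field.

`k` is a finite field of characteristic greater than `2 g + 1` and `K` any finitely generated
extension of `k` of transcendence degree one. The curves
`C_a : y ^ 2 = x ^ (2 g + 1) + a_0 x ^ (2 g - 1) + ... + a_(2 g - 1)`, `a_i ∈ K`, with separable right
hand side, are all the hyperelliptic curves over `K` with a rational Weierstrass point (the point at
infinity; for `g = 1` all elliptic curves), and `C_a`, `C_b` are isomorphic if and only if
`b_i = u ^ (2 i + 4) a_i` for all `i`, for some `u ∈ Kˣ`.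

For a place `v` let `m_v` be the least integer such that `ord_v (a_i) ≥ - (i + 2) m_v` for all `i`.
The height of the curve is `h = ∑ deg(v) m_v`; it is the height of the point `(a_0 : a_1 : ...)` of a
weighted projective space and depends only on the class of the curve up to quadratic twists. The
twist degree `t` is the sum of the degrees of the `v` for which `m_v` is odd (for `g = 1` the `v` of
reduction type `I_n ^ *`, `II ^ *`, `III ^ *` or `IV ^ *`, and `h + t` is one sixth of the degree of
the minimal discriminant). The classes of the curves with `h ≤ M` and `t ≤ N` are finitely many.

Let `J` be the Jacobian of `C_a`, `V = J(K ^ s)[2 ^ ∞]` and `W = V ⊗ Z[ε] / ε ^ 2` with the action of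
`Gal(K ^ s / K)` twisted by `s ↦ 1 + deg (s) ε`, where `s` acts as the `deg (s)`-th power of the
Frobenius automorphism on the constants. For `N`, and then `M`, going to infinity: for `100` per cent
of all the curves the Selmer groups of `V` and of `W` have the same corank `r ≤ 1`; for one half of
all the curves the corank is `0` and the `2`-power torsion of the Tate-Shafarevich group of `J` is
finite, and for one half the corank is `1`. So the Tate conjecture holds for the smooth projective
surfaces fibred over the curve with function field `K` with generic fibre `C_a`, for one half of all
the `C_a`. As the coranks of the Selmer groups of `V` and of `W` are the dimensions of the kernels of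
`F - 1` and of `(F - 1) ^ 2` on the cohomology group whose characteristic polynomial of the Frobenius
`F` is the `L`-function of `J`, the order of vanishing of the `L`-function is `r` for `100` per cent.

`J(Ω)`, `Ω` a separable closure of `K`, is the class group of `Ω[x, y] / (y ^ 2 - f)` (the curve has
one point at infinity). All Selmer groups are taken over `Ω`, with the local conditions at the
decomposition groups of all places; as `Gal(K_v ^ s / K_v)` is the decomposition group of a place of
`Ω` above `v`, and a class of `H ^ 1 (K, J)` is trivial over the henselization at `v` if and only if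
it is trivial over the completion at `v`, these are the usual local conditions.
-/

set_option autoImplicit false

open Polynomial Pool.Agent.HA

namespace Pool.Agent.Results.MP_950c68_ag.AllHyperellipticCurves

/-- The coranks of the Selmer groups of `V = J[2 ^ ∞]` and of `W = V ⊗ Z[ε] / ε ^ 2` for all the
pointed hyperelliptic curves of genus `g` over `K`. -/
theorem result (k K : Type) [Field k] [Finite k] [Field K] [Algebra k K]
    [Algebra.EssFiniteType k K] (hK : Algebra.trdeg k K = 1) (g : ℕ) (hg : 1 ≤ g)
    (hp : ((2 * g + 1).factorial : k) ≠ 0) :
    (∀ M N, (Fam k K g M N fun _ => True).Finite) ∧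
    ∀ ε : ℝ, 0 < ε → ∃ M₀ : ℕ, ∀ M ≥ M₀, ∃ j N₀ : ℕ, ∀ N ≥ N₀,
      0 < (Fam k K g M N fun _ => True).ncard ∧
      ((Fam k K g M N fun a => ¬ (GoodF k (pol g a) j ∧ OrdF k (pol g a))).ncard : ℝ) ≤
        ε * (Fam k K g M N fun _ => True).ncard ∧
      |((Fam k K g M N fun a => ZeroF k (pol g a)).ncard : ℝ) -
        (Fam k K g M N fun _ => True).ncard / 2| ≤
        ε * (Fam k K g M N fun _ => True).ncard ∧
      |((Fam k K g M N fun a => OneF k (pol g a)).ncard : ℝ) -
        (Fam k K g M N fun _ => True).ncard / 2| ≤
        ε * (Fam k K g M N fun _ => True).ncard :=
  fam_main k K hK hg hp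

end Pool.Agent.Results.MP_950c68_ag.AllHyperellipticCurves
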