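import Pool.Agent.Lib.HS.Asm
import Pool.Agent.Lib.SmS.Fn.Main

/-!
All superelliptic curves `y ^ l = f(x)` over a global function field which contains the `l`-th roots
of unity, `l` an odd prime.

`k` is a finite field, `K` any finitely generated extension of `k` of transcendence degree one with a
primitive `l`-th root of unity, and `n = r + 1 ≥ 2` is prime to `l` with `n (l - 1) < char k`. If
`f ∈ K[x]` is separable of degree `n`, then `C : y ^ l = f(x)` is a curve of genus
`(n - 1) (l - 1) / 2` with one point at infinity, which is rational. Up to a change of the coordinates
`x`, `y` these are the curves `y ^ l = x ^ n + a_0 x ^ (n - 2) + ... + a_(n - 2)`, `a_i ∈ K`, with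
separable right hand side, and those with the coefficients `a_i` and `b_i` are isomorphic over the
`x`-line if and only if `b_i = u ^ (l (i + 2)) a_i` for all `i`, for some `u ∈ Kˣ`. For `l = 3`, `n = 4`
these are all the Picard curves over `K`.

For a place `v` let `m_v` be the least integer such that `ord_v (a_i) ≥ - (i + 2) m_v` for all `i`.
The height of the curve is `h = ∑ deg(v) m_v`; it is the height of the point `(a_0 : a_1 : ...)` of a
weighted projective space and depends only on the class of the curve up to the twists
`y ^ l = D f(x)`, `D ∈ Kˣ / Kˣˡ`. The twist degree `t` is the sum of the degrees of the `v` for which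
`m_v` is not divisible by `l`. The classes of the curves with `h ≤ M` and `t ≤ N` are finitely many.

Let `J` be the Jacobian of `C`. For `N`, and then `M`, going to infinity, for `100` per cent of all the
curves `C` all the `l`-power Selmer groups of `J` over `K`, the groups `J(K) / l ^ i J(K)` and the
`l`-primary part of the Tate-Shafarevich group of `J` are finite and bounded: for every `ε > 0` there is
an `M₀` such that for every `M ≥ M₀` there is a `B` such that for all large `N` these groups have at
most `B` elements for all but `ε` of the curves with `h ≤ M` and `t ≤ N`. So `J(K)` is finite, `J`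
satisfies the full conjecture of Birch and Swinnerton-Dyer, and the smooth projective surfaces over `k`
fibred over the curve with function field `K` with generic fibre `C` satisfy the Tate conjecture, for
`100` per cent of all the curves, without any condition on the signs of the functional equations.

`J(Ω)`, `Ω` a separable closure of `K`, is the class group of `Ω[x, y] / (y ^ l - f)` (the curve has
one point at infinity). All Selmer groups are taken over `Ω`, with the local conditions at the
decomposition groups of all places; as `Gal(K_v ^ s / K_v)` is the decomposition group of a place of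
`Ω` above `v`, and a class of `H ^ 1 (K, J)` is trivial over the henselization at `v` if and only if
it is trivial over the completion at `v`, these are the usual local conditions.
-/

set_option autoImplicit false

open Polynomial Pool.Agent.HS

namespace Pool.Agent.Results.MP_950c68_ag.AllSuperellipticCurves

/-- The `l`-power Selmer groups of the Jacobians of all the superelliptic curves `y ^ l = f(x)` over
`K`, `f` of degree `r + 1`. -/
theorem result (k K : Type) [Field k] [Finite k] [Field K] [Algebra k K]
    [Algebra.EssFiniteType k K] (hK : Algebra.trdeg k K = 1) (l : ℕ) [Fact l.Prime] (hl : l ≠ 2)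
    (hz : ∃ z : K, IsPrimitiveRoot z l) (r : ℕ) (hr : 1 ≤ r) (hlr : l.Coprime (r + 1))
    (hp : (r + 1) * (l - 1) < ringChar k) :
    (∀ M N, (Fam k K l r M N fun _ => True).Finite) ∧
    ∀ ε : ℝ, 0 < ε → ∃ M₀ : ℕ, ∀ M ≥ M₀, ∃ B N₀ : ℕ, ∀ N ≥ N₀,
      0 < (Fam k K l r M N fun _ => True).ncard ∧
      ((Fam k K l r M N fun a => ¬ GoodL k l (pol r a) B).ncard : ℝ) ≤
        ε * (Fam k K l r M N fun _ => True).ncard := by
  have := SmN.Fnl.finite_cst k K hK
  have := SmN.Fnl.essFinite_cst k K
  exact fam_of_thm k K hK hl (fun f _ hm hs h2 h3 hG =>
    SmS.Fn.twistsS (SmN.Fnl.cst k K) K (SmN.Fnl.trdeg_cst k K hK) l hl hz f hm hs h2 h3 hG) hr hlr hp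

end Pool.Agent.Results.MP_950c68_ag.AllSuperellipticCurves
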