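import Mathlib
import Pool.Agent.Lib.MP_950c68_ag.Five.ExcMain

/-!
# Tate classes on abelian varieties of dimension at most five

The definitions and their meaning are in `Pool/Agent/Lib/MP_950c68_ag/Dim3Defs.lean` (`IsWeil`,
`IsTate`, `Supersingular`, `Ordinary`, `Distinct`, `HalfSystem`) and
`Pool/Agent/Lib/MP_950c68_ag/Five/Defs.lean` (`HondaTate`, `AV`, `Gen`); `Exc` is in
`Five/ExcFour.lean`.

`T` is the multiset of the eigenvalues of the Frobenius of an abelian variety `A` over the field
with `q = p ^ f` elements, all of whose endomorphisms over the algebraic closure are defined over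
the field; the submultisets `s ≤ T` with `2 j` members and `∏ s = q ^ j` up to a root of unity
index the eigenvectors in the union of the spaces `E ^ j` of `A` over finite extensions.

The class `e • Φ + k • {w}` in the rule `Gen.weil` is the determinant of `H¹(A' × E ^ k)` over an
imaginary quadratic field `K`: here `x` is the Weil number of `A'` (a power of a simple variety, of
dimension `e * Φ.card`), `K` is contained in `ℚ(x)` and `Φ` is the set of the conjugates over `K`,
`w` is the Weil number of an elliptic curve `E`.

The classes `Exc` are classes on the product of two abelian surfaces and a supersingular elliptic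
curve; they occur at most once, in dimension five.
-/

namespace Pool.Agent.Results.MP_950c68_ag.DimFive

open Pool.Agent.Lib.MP_950c68_ag.Dim3 (IsTate)
open Pool.Agent.Lib.MP_950c68_ag.Five

/-- All Tate classes of all codimensions on abelian varieties of dimension at most five are
generated by divisor classes, Weil classes on abelian varieties `A' × E ^ k` of dimension four and
six and, in dimension five, classes of codimension two on the product of two abelian surfaces and a
supersingular elliptic curve. -/
theorem result (p f : ℕ) [Fact p.Prime] (T s : Multiset ℂ) (hT : AV p (p ^ f) T)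
    (hcard : Multiset.card T ≤ 10) (hle : s ≤ T) (hs : s ≠ 0) (hTate : IsTate (p ^ f) s) :
    Gen p (p ^ f) s ∨ (8 < Multiset.card T ∧ ∃ x y z w : ℂ, ∃ t : Multiset ℂ,
      s = {x, y, z, w} + t ∧ (t = 0 ∨ Gen p (p ^ f) t) ∧ Exc (p ^ f) x y z w) := by
  rcases main_exc rfl hT hcard hle hTate with h | ⟨x, y, z, w, t, h1, h2, h3⟩
  · exact Or.inl (h.resolve_left hs)
  · right
    refine ⟨?_, x, y, z, w, t, h1, h2, h3⟩
    by_contra hlt
    push Not at hlt
    obtain ⟨hw, hdx, hdy, hyz, hyz', hxy, hTa⟩ := h3
    have hsub : ∀ v : ℂ, v ∈ ({x, y, z, w} : Multiset ℂ) → v ∈ T := by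
      intro v hv
      apply Multiset.mem_of_le hle
      rw [h1]
      exact Multiset.mem_add.mpr (Or.inl hv)
    exact noExc_of_card hT hlt x (hsub x (by simp)) y (hsub y (by simp)) z (hsub z (by simp)) w
      (hsub w (by simp)) hw hdx hdy hyz hyz' hxy hTa

end Pool.Agent.Results.MP_950c68_ag.DimFive
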