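import Pool.Agent.Lib.TTA.FPMain

/-!
# The Tate conjecture in all codimensions for 100 per cent of the fibre products of elliptic
# surfaces over any curve

`k` is a finite field of characteristic `p > 3`, `K` any finitely generated extension of `k` of
transcendence degree one, `C` the smooth projective curve with function field `K`.

THE FAMILY. The curves `E : y ^ 2 = x ^ 3 + A x + B`, `A`, `B ∈ K`, with separable right hand side
are all the elliptic curves over `K`; `(A, B)` and `(u ^ 4 A, u ^ 6 B)` give isomorphic curves. For
a place `v` let `m_v` be the least integer with `ord_v (A) ≥ - 2 m_v`, `ord_v (B) ≥ - 3 m_v`. The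
height `h = ∑ deg(v) m_v` is the height of the point `(A : B)` of the weighted projective line, and
the twist degree `t` is the sum of the degrees of the `v` with odd `m_v`; the degree of the minimal
discriminant is `6 (h + t)`. There are finitely many isomorphism classes with `h ≤ M`, `t ≤ N`
(`Fam k K 1 M N`). A property holds for almost all `E`, or for almost all `E` with a property `F`,
if the share of the exceptions among these classes is small for all large `M` and all
`N ≥ N_0 (M)` (`AlmostAllIn`).

THEOREM. For every `n`, for almost all `E_1`, for almost all `E_2` with good reduction at the bad
places of `E_1`, ..., for almost all `E_n` with good reduction at the bad places of `E_1`, ...,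
`E_(n - 1)`:
(1) for every choice `F_1, ..., F_m` of an odd number `m ≥ 3` of these curves the Selmer group of
`T ⊗ ℚ_2 / ℤ_2`, where `T = T_2(F_1) ⊗ ... ⊗ T_2(F_m) ⊗ ℤ_2(-(m - 1) / 2)`, has corank at most `1`
(`SelmerLEOne`; `ModN` with the action `actN`);
(2) for each of the curves `F` the order of vanishing of the `L`-function at `s = 1` is the corank
of the `2`-power Selmer group, and is at most `1` (`OrdC`: the corank of the Selmer group of
`V = F [2 ^ ∞]` is equal to that of `V ⊗ Z[ε] / ε ^ 2`, and at most `1`).
Moreover, if the cubics of given `E_1, ..., E_n` have no root in `K` and for no nonempty
`J ⊆ {1, ..., n}` the product of the discriminants of the `E_i`, `i ∈ J`, is a constant times a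
square (`Independent`: the geometric Galois group of the `2`-torsion is `GL_2(𝔽_2) ^ n`), then (1)
and (2) hold for the quadratic twists `E_1 ^ d, ..., E_n ^ d` for all `d ∈ Kˣ / Kˣ²` outside a set
of density `0` (by the degree of the ramification of `K(√ d)`).

APPLICATION: FIBRE PRODUCTS. Let `E_1, ..., E_n` be as in the theorem, `S_i` the minimal elliptic
surface of `E_i`. As different `E_i` have different bad places, the fibre product over `C`

  `X = S_1 × ... × S_n`

is a smooth projective variety of dimension `n + 1` over `k`. By the decomposition theorem and the
Kuenneth formula `H ^ (2 j) (X)` is the direct sum of a part spanned by classes of algebraic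
cycles, of parts of the cohomology of products of elliptic curves over finite fields (in the bad
fibres; here the Tate conjecture is known), and of Tate twists of the groups
`H = H ^ 1 (C, j_* V_I)`, where `I` runs over the subsets of `{1, ..., n}` with an ODD number `m`
of elements and `V_I` is the tensor product of the `H ^ 1 (E_i)`, `i ∈ I`. (For `I` with an even
number of elements `≠ 0` there is nothing in `H ^ 0` and `H ^ 2`: the geometric representation
modulo `2` has no invariants, because almost all tuples are `Independent`.) The Tate classes in `H`
are the elements of the Selmer group of `T ⊗ ℚ_2`, so their dimension is the corank in (1). The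
Frobenius `F` acts on `H` (twisted to the weight `0`) as an orthogonal transformation, so the
number of its Jordan blocks with eigenvalue `1`, which is the corank, and the multiplicity of the
eigenvalue `1` have the same parity. If `m ≥ 3` all local root numbers of `V_I` are `1` (at a bad
place of `E_i`, where the other curves are good, it is that of `E_i` to the power `2 ^ (m - 1)`),
so the multiplicity is even, and by (1) the corank and the multiplicity are `0`: there are no Tate
classes in `H`, for any prime `l ≠ p`. If `m = 1`, by (2) and the theorem of Gross and Zagier the
conjecture of Birch and Swinnerton-Dyer holds for `E_i`, that is, the Tate conjecture for `S_i`. So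
the Tate conjecture holds in all codimensions and for all primes `l ≠ p` for `100` per cent of ALL
fibre products `X` of `n` elliptic surfaces with disjoint bad fibres over `C`.

APPLICATION: TWISTS OF A GIVEN FIBRE PRODUCT. Let `E_1, ..., E_n` be independent with different bad
places. For `d` not a constant times a square let `C_d` be the double cover of `C` with function
field `K(√ d)` and `Y` the fibre product over `C_d` of the minimal elliptic surfaces over `C_d`
with the generic fibres `E_i`. It is smooth, with the involution `τ` which is the product of the
involutions `-1 ∘ σ`, `σ` given by that of `C_d` over `C`. The components of the fixed locus of `τ`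
are products of points and at most one rational or elliptic curve. The quotient `W_d` by `τ` of the
blow-up of `Y` in the fixed locus is a smooth projective variety of dimension `n + 1`, with the
generic fibre `E_1 ^ d × ... × E_n ^ d` over `C`. The same argument (the local root numbers at the
ramified places of `d` where all `E_i` are good are `χ_v(-1) ^ (2 ^ (m - 1)) = 1`) gives the Tate
conjecture in all codimensions for `100` per cent of the `W_d`.

`Gal(K_v ^ s / K_v)` is the decomposition group of a place of a separable closure `Ω` of `K` above
`v`, and all places of `Ω` are used; the places are the nontrivial valuation rings of `Ω` which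
contain `k`. `ModN`, `actN`, `Independent`, `SelmerLEOne`, `Good`, `GoodTwist`, `GoodReduction`,
`AlmostAllIn` and `Nested` are defined in `Pool/Agent/Lib/TTA/FPDefs.lean`, `Fam` in
`Pool/Agent/Lib/HA/Defs.lean`, `Tate` and `tateMap` in `Pool/Agent/Lib/TTC/TateD.lean`, the Selmer groups and their coranks in
`Pool/Agent/Lib/SmJ/L/SelDefs.lean`, `Pool/Agent/Lib/Sm/L/Stmt.lean` and `StmtW.lean`, the
densities of sets of twists in `Pool/Agent/Lib/SmN/Stm.lean` and `Stm2.lean`.
-/

set_option autoImplicit false

open Pool.Agent.SmN.Stm Pool.Agent.HA Pool.Agent.TTA.FP

namespace Pool.Agent.Results.MP_950c68_ag.FibreProducts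

/-- **The theorem.** The conclusions `Good` hold for almost all `E_1`, almost all `E_2` with good
reduction at the bad places of `E_1`, ..., almost all `E_n` with good reduction at the bad places
of `E_1`, ..., `E_{n-1}`. If given curves `E_1`, ..., `E_n` are independent, they hold for the
quadratic twists of the `n` curves by `d` for almost all `d`. -/
theorem result (k K : Type) [Field k] [Finite k] [Field K] [Algebra k K]
    [Algebra.EssFiniteType k K] (hK : Algebra.trdeg k K = 1) (h6 : (6 : k) ≠ 0) (n : ℕ) :
    (∀ M N, (Fam k K 1 M N fun _ => True).Finite) ∧
    (∀ N, (Twists k N fun _ : K => True).Finite) ∧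
    (Nested k n ∅ fun (A B : Fin n → K) => Good k A B) ∧
    ∀ A B : Fin n → K, Independent k A B → AlmostAll k fun _ (d : K) => GoodTwist k A B d :=
  main k K hK h6 n

end Pool.Agent.Results.MP_950c68_ag.FibreProducts
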